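import Pool.Agent.helper24.ISL.Spec

/-!
# Row isl:PRD (MP_512a69): approximation at finitely many places
-/

set_option autoImplicit false

namespace Pool.Agent.ISL

open Matrix Filter Topology

theorem PRD_mul_lt {n : ℕ} (q : ℕ) [Fact q.Prime] (A X : Mat n ℚ) (δ : ℚ) (hδ : 0 < δ)
    (h : ∀ i k j, padicNorm q (A i k) * padicNorm q (X k j) < δ) (i j : Fin n) :
    padicNorm q ((A * X) i j) < δ := by
  rw [Matrix.mul_apply]
  refine padicNorm.sum_lt' (fun k _ => ?_) hδ
  rw [padicNorm.mul]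
  exact h i k j

theorem PRD_mul_le {n : ℕ} (q : ℕ) [Fact q.Prime] (A X : Mat n ℚ) (δ : ℚ) (hδ : 0 ≤ δ)
    (h : ∀ i k j, padicNorm q (A i k) * padicNorm q (X k j) ≤ δ) (i j : Fin n) :
    padicNorm q ((A * X) i j) ≤ δ := by
  rw [Matrix.mul_apply]
  refine padicNorm.sum_le' (fun k _ => ?_) hδ
  rw [padicNorm.mul]
  exact h i k j

theorem PRD_one {n : ℕ} (q : ℕ) [Fact q.Prime] (i j : Fin n) : padicNorm q ((1 : Mat n ℚ) i j) ≤ 1 := by
  rw [Matrix.one_apply]
  split_ifs
  · rw [padicNorm.one]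
  · rw [padicNorm.zero]
    exact zero_le_one

theorem PRD_norm_pow (q : ℕ) [Fact q.Prime] (x : ℚ) (k : ℕ) : padicNorm q (x ^ k) = padicNorm q x ^ k := by
  induction k with
  | zero => rw [pow_zero, pow_zero, padicNorm.one]
  | succ k ih => rw [pow_succ, pow_succ, padicNorm.mul, ih]

/-- a natural number with small norms at given primes -/
theorem PRD_pow (Q : Finset ℕ) (hQ : ∀ q ∈ Q, q.Prime) (B δ : ℚ) (hB : 0 < B) (hδ : 0 < δ) :
    ∃ M : ℕ, 0 < M ∧ ∀ q ∈ Q, B * padicNorm q (M : ℚ) < δ := by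
  obtain ⟨T, hT⟩ := exists_pow_lt_of_lt_one (show (0 : ℚ) < δ / B by positivity)
    (show (1 / 2 : ℚ) < 1 by norm_num)
  refine ⟨(∏ q ∈ Q, q) ^ T, pow_pos (Finset.prod_pos fun q hq => (hQ q hq).pos) T, fun q hq => ?_⟩
  have hp : Fact q.Prime := ⟨hQ q hq⟩
  obtain ⟨c, hc⟩ := Finset.dvd_prod_of_mem (fun q : ℕ => q) hq
  have h1 : padicNorm q ((∏ q ∈ Q, q : ℕ) : ℚ) ≤ 1 / 2 := by
    rw [hc, Nat.cast_mul, padicNorm.mul]
    have h2 : padicNorm q (q : ℚ) ≤ 1 / 2 := by
      rw [padicNorm.padicNorm_p (hQ q hq).one_lt, one_div]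
      exact inv_anti₀ (by norm_num) (by exact_mod_cast (hQ q hq).two_le)
    calc padicNorm q (q : ℚ) * padicNorm q (c : ℚ) ≤ 1 / 2 * 1 :=
          mul_le_mul h2 (padicNorm.of_nat c) (padicNorm.nonneg _) (by norm_num)
      _ = 1 / 2 := mul_one _
  have h3 : padicNorm q (((∏ q ∈ Q, q) ^ T : ℕ) : ℚ) ≤ (1 / 2) ^ T := by
    rw [Nat.cast_pow]
    rw [PRD_norm_pow]
    exact pow_le_pow_left₀ (padicNorm.nonneg _) h1 T
  calc B * padicNorm q (((∏ q ∈ Q, q) ^ T : ℕ) : ℚ) ≤ B * (1 / 2) ^ T :=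
        mul_le_mul_of_nonneg_left h3 hB.le
    _ < B * (δ / B) := mul_lt_mul_of_pos_left hT hB
    _ = δ := by field_simp

theorem PRD_claim (h1 : CLO_stmt) (n : ℕ) (H : Subgroup (SL n ℚ)) (S₀ : Set ℕ) (b : Bool)
    (hN : ∀ (q : ℕ) [Fact q.Prime], q ∉ S₀ → NS ℚ_[q] H (insert q S₀) b = Set.univ)
    (hR : b = true → NS ℝ H S₀ false = Set.univ) (g : SL n ℚ) (Q : Finset ℕ) :
    (∀ q ∈ Q, q.Prime ∧ q ∉ S₀) → ∀ δ : ℚ, 0 < δ → ∃ k ∈ H,
      (∀ q ∈ Q, ∀ i j, padicNorm q (k i j - g i j) < δ) ∧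
      (∀ q : ℕ, q.Prime → q ∉ S₀ → q ∉ Q → ∀ i j, padicNorm q (k i j) ≤ 1) ∧
      (b = true → ∀ i j, |k i j - g i j| < δ) := by
  classical
  induction Q using Finset.induction_on with
  | empty =>
    intro _ δ hδ
    by_cases hb : b = true
    · have hu : cs ℝ g ∈ NS ℝ H S₀ false := by
        rw [hR hb]
        trivial
      have hcl := hu 1 one_pos 1 one_pos
      rw [h1] at hcl
      obtain ⟨k, hk, hk2⟩ := hcl (δ : ℝ) (by exact_mod_cast hδ)
      refine ⟨k, hk.1, by simp, ?_, ?_⟩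
      · intro q hq hS _ i j
        have : Fact q.Prime := ⟨hq⟩
        have h3 := hk.2.1 i j q hq hS
        rw [Nat.cast_one, padicNorm.one] at h3
        have h4 : k i j = (k i j - (1 : Mat n ℚ) i j) + (1 : Mat n ℚ) i j := by ring
        rw [h4]
        exact padicNorm.nonarchimedean.trans (max_le h3 (PRD_one q i j))
      · intro _ i j
        have h3 := hk2 i j
        rw [cs_apply, Real.norm_eq_abs, ← Rat.cast_sub, ← Rat.cast_abs] at h3
        exact_mod_cast h3
    · refine ⟨1, H.one_mem, by simp, ?_, fun h => absurd h hb⟩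
      intro q hq hS _ i j
      have : Fact q.Prime := ⟨hq⟩
      exact PRD_one q i j
  | insert q Q' hq ih =>
    intro hQ δ hδ
    have hqp : q.Prime := (hQ q (Finset.mem_insert_self q Q')).1
    have hqS : q ∉ S₀ := (hQ q (Finset.mem_insert_self q Q')).2
    have hqF : Fact q.Prime := ⟨hqp⟩
    obtain ⟨h', hh', c1, c2, c3⟩ := ih (fun r hr => hQ r (Finset.mem_insert_of_mem hr)) (δ / 2) (half_pos hδ)
    -- bounds
    set B : ℚ := 1 + ∑ r ∈ Q', ∑ i, ∑ j, padicNorm r (h' i j) with hBdef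
    have hBpos : 0 < B := by
      have : 0 ≤ ∑ r ∈ Q', ∑ i, ∑ j, padicNorm r (h' i j) :=
        Finset.sum_nonneg fun r hr => Finset.sum_nonneg fun i _ => Finset.sum_nonneg fun j _ => by
          have : Fact r.Prime := ⟨(hQ r (Finset.mem_insert_of_mem hr)).1⟩
          exact padicNorm.nonneg _
      linarith
    have hBle : ∀ r ∈ Q', ∀ i j, padicNorm r (h' i j) ≤ B := by
      intro r hr i j
      have e1 : padicNorm r (h' i j) ≤ ∑ j, padicNorm r (h' i j) :=
        Finset.single_le_sum (f := fun j => padicNorm r (h' i j)) (fun j _ => by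
          have : Fact r.Prime := ⟨(hQ r (Finset.mem_insert_of_mem hr)).1⟩
          exact padicNorm.nonneg _) (Finset.mem_univ j)
      have e2 : ∑ j, padicNorm r (h' i j) ≤ ∑ i, ∑ j, padicNorm r (h' i j) :=
        Finset.single_le_sum (f := fun i => ∑ j, padicNorm r (h' i j)) (fun i _ =>
          Finset.sum_nonneg fun j _ => by
          have : Fact r.Prime := ⟨(hQ r (Finset.mem_insert_of_mem hr)).1⟩
          exact padicNorm.nonneg _) (Finset.mem_univ i)
      have e3 : ∑ i, ∑ j, padicNorm r (h' i j) ≤ ∑ r ∈ Q', ∑ i, ∑ j, padicNorm r (h' i j) :=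
        Finset.single_le_sum (f := fun r => ∑ i, ∑ j, padicNorm r (h' i j)) (fun r hr =>
          Finset.sum_nonneg fun i _ => Finset.sum_nonneg fun j _ => by
          have : Fact r.Prime := ⟨(hQ r (Finset.mem_insert_of_mem hr)).1⟩
          exact padicNorm.nonneg _) hr
      linarith
    obtain ⟨M, hM, hM2⟩ := PRD_pow Q' (fun r hr => (hQ r (Finset.mem_insert_of_mem hr)).1) B (δ / 2)
      hBpos (half_pos hδ)
    set C : ℚ := 1 + ∑ i, ∑ j, |h' i j| with hCdef
    have hCpos : 0 < C := by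
      have : 0 ≤ ∑ i, ∑ j, |h' i j| :=
        Finset.sum_nonneg fun i _ => Finset.sum_nonneg fun j _ => abs_nonneg _
      linarith
    have hCle : ∀ i, ∑ j, |h' i j| ≤ C := by
      intro i
      have e2 : ∑ j, |h' i j| ≤ ∑ i, ∑ j, |h' i j| :=
        Finset.single_le_sum (f := fun i => ∑ j, |h' i j|) (fun i _ =>
          Finset.sum_nonneg fun j _ => abs_nonneg _) (Finset.mem_univ i)
      linarith
    have hu : cs ℚ_[q] (h'⁻¹ * g) ∈ NS ℚ_[q] H (insert q S₀) b := by
      rw [hN q hqS]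
      trivial
    have hcl := hu M hM (δ / (2 * C)) (by positivity)
    rw [h1] at hcl
    obtain ⟨k, hk, hk2⟩ := hcl (δ : ℝ) (by exact_mod_cast hδ)
    have hk2' : ∀ i j, padicNorm q (k i j - (h'⁻¹ * g) i j) < δ := by
      intro i j
      have h3 := hk2 i j
      rw [cs_apply, ← Rat.cast_sub, Padic.eq_padicNorm] at h3
      exact_mod_cast h3
    have hcoe : ((h' * k : SL n ℚ) : Mat n ℚ) = (h' : Mat n ℚ) * (k : Mat n ℚ) := rfl
    refine ⟨h' * k, H.mul_mem hh' hk.1, ?_, ?_, ?_⟩
    · intro r hr i j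
      rcases Finset.mem_insert.1 hr with rfl | hr'
      · have e1 : (h' * k) i j - g i j = ((h' : Mat n ℚ) * ((k : Mat n ℚ) - ((h'⁻¹ * g : SL n ℚ) : Mat n ℚ))) i j := by
          rw [Matrix.mul_sub, Matrix.sub_apply]
          have : (h' : Mat n ℚ) * ((h'⁻¹ * g : SL n ℚ) : Mat n ℚ) = (g : Mat n ℚ) := by
            rw [← Matrix.SpecialLinearGroup.coe_mul, mul_inv_cancel_left]
          rw [this]
          rfl
        rw [e1]
        refine PRD_mul_lt r _ _ δ hδ (fun i k' j => ?_) i j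
        have e2 := c2 r hqp hqS hq i k'
        have e3 := hk2' k' j
        calc padicNorm r (h' i k') * padicNorm r (((k : Mat n ℚ) - ((h'⁻¹ * g : SL n ℚ) : Mat n ℚ)) k' j)
            ≤ 1 * padicNorm r (((k : Mat n ℚ) - ((h'⁻¹ * g : SL n ℚ) : Mat n ℚ)) k' j) :=
              mul_le_mul_of_nonneg_right e2 (padicNorm.nonneg _)
          _ < δ := by
              rw [one_mul]
              exact e3
      · have hrp : r.Prime := (hQ r hr).1
        have hrF : Fact r.Prime := ⟨hrp⟩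
        have hrq : r ≠ q := fun h => hq (h ▸ hr')
        have hrS : r ∉ insert q S₀ := by
          intro h
          rcases Set.mem_insert_iff.1 h with h | h
          · exact hrq h
          · exact (hQ r hr).2 h
        have e1 : (h' * k) i j - g i j = (h' i j - g i j) +
            ((h' : Mat n ℚ) * ((k : Mat n ℚ) - 1)) i j := by
          rw [Matrix.mul_sub, Matrix.sub_apply, Matrix.mul_one]
          change ((h' : Mat n ℚ) * (k : Mat n ℚ)) i j - g i j = _
          ring
        rw [e1]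
        refine lt_of_le_of_lt padicNorm.nonarchimedean (max_lt ?_ ?_)
        · exact (c1 r hr' i j).trans (half_lt_self hδ)
        · refine PRD_mul_lt r _ _ δ hδ (fun i k' j => ?_) i j
          have e2 := hBle r hr' i k'
          have e3 := hk.2.1 k' j r hrp hrS
          calc padicNorm r (h' i k') * padicNorm r (((k : Mat n ℚ) - 1) k' j)
              ≤ B * padicNorm r (M : ℚ) := mul_le_mul e2 e3 (padicNorm.nonneg _) hBpos.le
            _ < δ / 2 := hM2 r hr'
            _ < δ := half_lt_self hδ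
    · intro r hrp hrS hrQ i j
      have hrF : Fact r.Prime := ⟨hrp⟩
      have hrQ' : r ∉ Q' := fun h => hrQ (Finset.mem_insert_of_mem h)
      have hrq : r ≠ q := fun h => hrQ (h ▸ Finset.mem_insert_self _ _)
      have hrS' : r ∉ insert q S₀ := by
        intro h
        rcases Set.mem_insert_iff.1 h with h | h
        · exact hrq h
        · exact hrS h
      refine PRD_mul_le r (h' : Mat n ℚ) (k : Mat n ℚ) 1 zero_le_one (fun i k' j => ?_) i j
      have e2 := c2 r hrp hrS hrQ' i k'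
      have e3 : padicNorm r (k k' j) ≤ 1 := by
        have e4 : k k' j = (k k' j - (1 : Mat n ℚ) k' j) + (1 : Mat n ℚ) k' j := by ring
        rw [e4]
        exact padicNorm.nonarchimedean.trans (max_le ((hk.2.1 k' j r hrp hrS').trans
          (padicNorm.of_nat M)) (PRD_one r k' j))
      calc padicNorm r (h' i k') * padicNorm r (k k' j) ≤ 1 * 1 :=
            mul_le_mul e2 e3 (padicNorm.nonneg _) zero_le_one
        _ = 1 := mul_one _
    · intro hb i j
      have e1 : (h' * k) i j - g i j = (h' i j - g i j) +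
          ((h' : Mat n ℚ) * ((k : Mat n ℚ) - 1)) i j := by
        rw [Matrix.mul_sub, Matrix.sub_apply, Matrix.mul_one]
        change ((h' : Mat n ℚ) * (k : Mat n ℚ)) i j - g i j = _
        ring
      rw [e1]
      have e2 : |((h' : Mat n ℚ) * ((k : Mat n ℚ) - 1)) i j| ≤ δ / 2 := by
        rw [Matrix.mul_apply]
        calc |∑ l, h' i l * ((k : Mat n ℚ) - 1) l j| ≤ ∑ l, |h' i l * ((k : Mat n ℚ) - 1) l j| :=
              Finset.abs_sum_le_sum_abs _ _
          _ ≤ ∑ l, |h' i l| * (δ / (2 * C)) := by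
              refine Finset.sum_le_sum fun l _ => ?_
              rw [abs_mul]
              exact mul_le_mul_of_nonneg_left (hk.2.2 hb l j).le (abs_nonneg _)
          _ = (∑ l, |h' i l|) * (δ / (2 * C)) := by rw [Finset.sum_mul]
          _ ≤ C * (δ / (2 * C)) := mul_le_mul_of_nonneg_right (hCle i) (by positivity)
          _ = δ / 2 := by field_simp
      calc |h' i j - g i j + ((h' : Mat n ℚ) * ((k : Mat n ℚ) - 1)) i j|
          ≤ |h' i j - g i j| + |((h' : Mat n ℚ) * ((k : Mat n ℚ) - 1)) i j| := abs_add_le _ _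
        _ < δ / 2 + δ / 2 := add_lt_add_of_lt_of_le (c3 hb i j) e2
        _ = δ := add_halves δ

/-- **PRD**: approximation at finitely many places. -/
theorem PRD (h1 : CLO_stmt) : PRD_stmt := by
  classical
  intro n H S₀ b hN hR g m ε hm hε
  -- the finite set of primes
  let P : ℕ := m * ∏ i : Fin n, ∏ j : Fin n, (g i j).den
  have hP : P ≠ 0 := by
    refine mul_ne_zero hm.ne' ?_
    exact Finset.prod_ne_zero_iff.2 fun i _ => Finset.prod_ne_zero_iff.2 fun j _ => (g i j).den_nz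
  let Q : Finset ℕ := P.primeFactors.filter (fun q => q ∉ S₀)
  have hQ : ∀ q ∈ Q, q.Prime ∧ q ∉ S₀ := by
    intro q hq
    exact ⟨Nat.prime_of_mem_primeFactors (Finset.mem_filter.1 hq).1, (Finset.mem_filter.1 hq).2⟩
  -- bounds
  set B : ℚ := 1 + ∑ r ∈ Q, ∑ i, ∑ j, padicNorm r (g i j) with hBdef
  have hBpos : 0 < B := by
    have : 0 ≤ ∑ r ∈ Q, ∑ i, ∑ j, padicNorm r (g i j) :=
      Finset.sum_nonneg fun r hr => Finset.sum_nonneg fun i _ => Finset.sum_nonneg fun j _ => by
        have : Fact r.Prime := ⟨(hQ r hr).1⟩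
        exact padicNorm.nonneg _
    linarith
  have hBle : ∀ r ∈ Q, ∀ i j, padicNorm r (g i j) ≤ B := by
    intro r hr i j
    have e1 : padicNorm r (g i j) ≤ ∑ j, padicNorm r (g i j) :=
      Finset.single_le_sum (f := fun j => padicNorm r (g i j)) (fun j _ => by
        have : Fact r.Prime := ⟨(hQ r hr).1⟩
        exact padicNorm.nonneg _) (Finset.mem_univ j)
    have e2 : ∑ j, padicNorm r (g i j) ≤ ∑ i, ∑ j, padicNorm r (g i j) :=
      Finset.single_le_sum (f := fun i => ∑ j, padicNorm r (g i j)) (fun i _ =>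
        Finset.sum_nonneg fun j _ => by
        have : Fact r.Prime := ⟨(hQ r hr).1⟩
        exact padicNorm.nonneg _) (Finset.mem_univ i)
    have e3 : ∑ i, ∑ j, padicNorm r (g i j) ≤ ∑ r ∈ Q, ∑ i, ∑ j, padicNorm r (g i j) :=
      Finset.single_le_sum (f := fun r => ∑ i, ∑ j, padicNorm r (g i j)) (fun r hr =>
        Finset.sum_nonneg fun i _ => Finset.sum_nonneg fun j _ => by
        have : Fact r.Prime := ⟨(hQ r hr).1⟩
        exact padicNorm.nonneg _) hr
    linarith
  set C : ℚ := 1 + ∑ i, ∑ j, |g i j| with hCdef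
  have hCpos : 0 < C := by
    have : 0 ≤ ∑ i, ∑ j, |g i j| :=
      Finset.sum_nonneg fun i _ => Finset.sum_nonneg fun j _ => abs_nonneg _
    linarith
  have hCle : ∀ j, ∑ i, |g i j| ≤ C := by
    intro j
    have e2 : ∑ i, |g i j| ≤ ∑ j, ∑ i, |g i j| :=
      Finset.single_le_sum (f := fun j => ∑ i, |g i j|) (fun i _ =>
        Finset.sum_nonneg fun j _ => abs_nonneg _) (Finset.mem_univ j)
    rw [Finset.sum_comm] at e2
    linarith
  -- the size of the approximation: smaller than all norms of `m` at `Q`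
  obtain ⟨δ₁, hδ₁, hδ₁'⟩ : ∃ δ₁ : ℚ, 0 < δ₁ ∧ ∀ q ∈ Q, δ₁ ≤ padicNorm q (m : ℚ) := by
    refine ⟨(m : ℚ)⁻¹, by positivity, fun q hq => ?_⟩
    have hF : Fact q.Prime := ⟨(hQ q hq).1⟩
    have hm0 : (m : ℚ) ≠ 0 := by exact_mod_cast hm.ne'
    have hq0 : (0 : ℚ) < q := by exact_mod_cast (hQ q hq).1.pos
    rw [padicNorm.eq_zpow_of_nonzero hm0, padicValRat.of_nat, _root_.zpow_neg, _root_.zpow_natCast]
    exact inv_anti₀ (by positivity) (by exact_mod_cast Nat.le_of_dvd hm pow_padicValNat_dvd)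
  obtain ⟨k, hk, c1, c2, c3⟩ := PRD_claim h1 n H S₀ b hN hR g⁻¹ Q hQ (min (δ₁ / B) (ε / (C)))
    (lt_min (by positivity) (by positivity))
  refine ⟨k⁻¹, H.inv_mem hk, ?_⟩
  rw [inv_inv]
  have e1 : ∀ i j, (k * g) i j - (1 : Mat n ℚ) i j =
      (((k : Mat n ℚ) - ((g⁻¹ : SL n ℚ) : Mat n ℚ)) * (g : Mat n ℚ)) i j := by
    intro i j
    rw [Matrix.sub_mul, Matrix.sub_apply]
    have : ((g⁻¹ : SL n ℚ) : Mat n ℚ) * (g : Mat n ℚ) = 1 := by
      rw [← Matrix.SpecialLinearGroup.coe_mul, inv_mul_cancel, Matrix.SpecialLinearGroup.coe_one]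
    rw [this]
    rfl
  refine ⟨fun i j q hq hS => ?_, fun hb i j => ?_⟩
  · have hF : Fact q.Prime := ⟨hq⟩
    by_cases hqQ : q ∈ Q
    · rw [e1]
      refine PRD_mul_le q _ _ _ (padicNorm.nonneg _) (fun i l j => ?_) i j
      calc padicNorm q (((k : Mat n ℚ) - ((g⁻¹ : SL n ℚ) : Mat n ℚ)) i l) * padicNorm q ((g : Mat n ℚ) l j)
          ≤ (δ₁ / B) * B :=
            mul_le_mul ((c1 q hqQ i l).le.trans (min_le_left _ _)) (hBle q hqQ l j) (padicNorm.nonneg _)
              (by positivity)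
        _ = δ₁ := by field_simp
        _ ≤ padicNorm q (m : ℚ) := hδ₁' q hqQ
    · have hqP : ¬ q ∣ P := by
        intro h
        exact hqQ (Finset.mem_filter.2 ⟨Nat.mem_primeFactors.2 ⟨hq, h, hP⟩, hS⟩)
      have hqm : padicNorm q (m : ℚ) = 1 := by
        rw [padicNorm.nat_eq_one_iff]
        intro h
        exact hqP (h.mul_right _)
      rw [hqm]
      have hg : ∀ i j, padicNorm q (g i j) ≤ 1 := by
        intro i j
        have hd : ¬ q ∣ (g i j).den := by
          intro h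
          refine hqP (h.trans ?_)
          refine Dvd.dvd.mul_left ?_ m
          exact (Finset.dvd_prod_of_mem (fun j => (g i j).den) (Finset.mem_univ j)).trans
            (Finset.dvd_prod_of_mem (fun i => ∏ j, (g i j).den) (Finset.mem_univ i))
        have h2 : padicNorm q ((g i j).den : ℚ) = 1 := by
          rw [padicNorm.nat_eq_one_iff]
          exact hd
        rw [← Rat.num_div_den (g i j), padicNorm.div, h2, div_one]
        exact padicNorm.of_int _
      have h3 : padicNorm q ((k * g) i j) ≤ 1 := by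
        refine PRD_mul_le q (k : Mat n ℚ) (g : Mat n ℚ) 1 zero_le_one (fun i l j => ?_) i j
        calc padicNorm q ((k : Mat n ℚ) i l) * padicNorm q ((g : Mat n ℚ) l j) ≤ 1 * 1 :=
              mul_le_mul (c2 q hq hS hqQ i l) (hg l j) (padicNorm.nonneg _) zero_le_one
          _ = 1 := mul_one _
      rw [sub_eq_add_neg]
      refine padicNorm.nonarchimedean.trans (max_le h3 ?_)
      rw [padicNorm.neg]
      exact PRD_one q i j
  · rw [e1, Matrix.mul_apply]
    by_cases hn : ∀ l, |g l j| = 0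
    · have : ∑ l, ((k : Mat n ℚ) - ((g⁻¹ : SL n ℚ) : Mat n ℚ)) i l * (g : Mat n ℚ) l j = 0 := by
        refine Finset.sum_eq_zero fun l _ => ?_
        have := abs_eq_zero.1 (hn l)
        rw [this, mul_zero]
      rw [this, abs_zero]
      exact hε
    · push Not at hn
      obtain ⟨l₀, hl₀⟩ := hn
      calc |∑ l, ((k : Mat n ℚ) - ((g⁻¹ : SL n ℚ) : Mat n ℚ)) i l * (g : Mat n ℚ) l j|
          ≤ ∑ l, |((k : Mat n ℚ) - ((g⁻¹ : SL n ℚ) : Mat n ℚ)) i l * (g : Mat n ℚ) l j| :=
            Finset.abs_sum_le_sum_abs _ _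
        _ < ∑ l, (ε / C) * |g l j| := by
            refine Finset.sum_lt_sum (fun l _ => ?_) ⟨l₀, Finset.mem_univ _, ?_⟩
            · rw [abs_mul]
              exact mul_le_mul_of_nonneg_right ((c3 hb i l).le.trans (min_le_right _ _)) (abs_nonneg _)
            · rw [abs_mul]
              exact mul_lt_mul_of_pos_right ((c3 hb i l₀).trans_le (min_le_right _ _))
                (lt_of_le_of_ne (abs_nonneg _) (Ne.symm hl₀))
        _ = (ε / C) * ∑ l, |g l j| := by rw [Finset.mul_sum]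
        _ ≤ (ε / C) * C := mul_le_mul_of_nonneg_left (hCle j) (by positivity)
        _ = ε := by field_simp

end Pool.Agent.ISL
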